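import Pool.Agent.LiebLoss.Final

/-!
# The self-energy of the non-relativistic electron grows like `Λ^(12/7)`

The conjectured lower bound `E₀ ≥ c Λ^(12/7)` for the ground state energy of
`H = ½ (p + √α A(x))² + H_f`, with the optimal dependence `α^(2/7)` on the coupling, uniformly in
the volume `V = L³`.

Proof idea.  Let `v = p + √α A(x)` and `δ = ‖v ψ‖`.  The gauge covariant translations
`U_a = exp(i a·v)` satisfy `‖U_a ψ - ψ‖ ≤ |a| δ`, so `ψ` is almost invariant under the holonomy
`exp(i N F)` of an `N`-fold traversed square of side `1/Λ` at distance `|c| ≲ 1/δ` from the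
electron, `N ≈ Λ/δ`.  The shift generated by the electric field smeared near that square changes
the sign of `exp(i N F)` after a parameter time `≈ 1/N`, so this field has norm `≳ N` in the state `ψ`.
The `≈ (Λ/δ)³` fields obtained for the different `c` are almost orthogonal (Bessel), whence
`H_f ≳ Λ (Λ/δ)³ N² ≈ Λ (Λ/δ)⁵`; optimising over `δ` gives the claim.
-/

namespace Pool.Agent.Results.MP_7d06de_mp.TwelveSevenths

open Pool.Agent.LiebLoss

/-- **Main result.** There is an absolute constant `c > 0` such that for every `α > 0` the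
self-energy satisfies `E₀ ≥ c α^(2/7) Λ^(12/7)` for all sufficiently large `Λ`, uniformly in the
volume. -/
theorem result : ∃ c : ℝ, 0 < c ∧ ∀ α : ℝ, 0 < α → ∃ K : ℝ, 0 < K ∧
    ∀ L Λ : ℝ, 0 < L → K ≤ Λ → K ≤ L * Λ ^ (6 / 7 : ℝ) →
      ∀ ε : (Fin 3 → ℤ) → Fin 2 → E3, IsPolarisation L Λ ε →
        c * α ^ (2 / 7 : ℝ) * Λ ^ (12 / 7 : ℝ) ≤ selfEnergy α L Λ ε :=
  lower_bound

end Pool.Agent.Results.MP_7d06de_mp.TwelveSevenths
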